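import Pool.Agent.Helper69.DC.Goals
import Pool.Agent.Helper69.DC.Goals2

/-!
# Project DC, packet DC-J1: no differential equation of order at most one
-/

namespace Pool.Agent.Helper86.DC

open MvPolynomial Finset Pool.Agent.Helper69.DC

/-- The exponents of total degree at most one. -/
noncomputable def ex {m : ℕ} (i : Fin (m + 1)) : Fin m →₀ ℕ :=
  Fin.cases 0 (fun i => Finsupp.single i 1) i

@[simp] theorem ex_zero {m : ℕ} : ex (m := m) 0 = 0 := rfl

@[simp] theorem ex_succ {m : ℕ} (i : Fin m) : ex i.succ = Finsupp.single i 1 := rfl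

theorem ex_inj {m : ℕ} : Function.Injective (ex (m := m)) := by
  intro i j h
  induction i using Fin.cases with
  | zero =>
    induction j using Fin.cases with
    | zero => rfl
    | succ j =>
      rw [ex_zero, ex_succ] at h
      have := DFunLike.congr_fun h j
      simp at this
  | succ i =>
    induction j using Fin.cases with
    | zero =>
      rw [ex_zero, ex_succ] at h
      have := DFunLike.congr_fun h i
      simp at this
    | succ j =>
      rw [ex_succ, ex_succ] at h
      have h1 := DFunLike.congr_fun h i
      by_contra hne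
      have hij : j ≠ i := fun h2 => hne (by rw [h2])
      rw [Finsupp.single_eq_same, Finsupp.single_apply, if_neg hij] at h1
      exact one_ne_zero h1

theorem exists_ex {m : ℕ} (α : Fin m →₀ ℕ) (h : α.sum (fun _ e => e) ≤ 1) : ∃ i, ex i = α := by
  classical
  rw [Finsupp.sum_fintype _ _ (fun _ => rfl)] at h
  by_cases h0 : α = 0
  · exact ⟨0, h0.symm⟩
  · obtain ⟨i, hi⟩ : ∃ i, α i ≠ 0 := by
      by_contra hcon
      push Not at hcon
      exact h0 (Finsupp.ext hcon)
    refine ⟨i.succ, ?_⟩
    rw [ex_succ]
    have h1 : α i + ∑ j ∈ univ.erase i, α j = ∑ j, α j := Finset.add_sum_erase _ _ (mem_univ i)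
    have h2 : ∑ j ∈ univ.erase i, α j = 0 := by omega
    ext j
    by_cases hij : i = j
    · subst hij
      rw [Finsupp.single_eq_same]
      omega
    · rw [Finsupp.single_apply, if_neg hij]
      rw [Finset.sum_eq_zero_iff] at h2
      exact (h2 j (Finset.mem_erase.mpr ⟨fun h3 => hij h3.symm, mem_univ j⟩)).symm

theorem coeff_single_mul {m : ℕ} {R : Type*} [CommRing R] (P G : MvPolynomial (Fin m) R)
    (i : Fin m) :
    (P * G).coeff (Finsupp.single i 1) = P.coeff (Finsupp.single i 1) * G.coeff 0 +
      P.coeff 0 * G.coeff (Finsupp.single i 1) := by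
  classical
  rw [coeff_mul, Finsupp.antidiagonal_single, Finset.sum_map]
  have h1 : (Finset.HasAntidiagonal.antidiagonal 1 : Finset (ℕ × ℕ)) = {(0, 1), (1, 0)} := by decide
  rw [h1, Finset.sum_pair (by decide)]
  change P.coeff (Finsupp.single i 0) * G.coeff (Finsupp.single i 1) +
    P.coeff (Finsupp.single i 1) * G.coeff (Finsupp.single i 0) = _
  rw [Finsupp.single_zero]
  ring

theorem coeff_tay3_zero {m : ℕ} (h : MvPolynomial (V3 m) ℂ) : (tay3 h).coeff 0 = h := by
  have h1 : (constantCoeff : MvPolynomial (Fin m) (MvPolynomial (V3 m) ℂ) →+* _).comp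
      ((tay3 (m := m)) : MvPolynomial (V3 m) ℂ →+* _) = RingHom.id _ := by
    apply MvPolynomial.ringHom_ext
    · intro a
      have e1 : tay3 (m := m) (C a) = C (C a) := by
        unfold tay3
        rw [aeval_C]
        rfl
      rw [RingHom.comp_apply]
      change constantCoeff (tay3 (C a)) = C a
      rw [e1, constantCoeff_C]
    · intro v
      rw [RingHom.comp_apply]
      change constantCoeff (tay3 (X v)) = X v
      unfold tay3
      rw [aeval_X]
      rcases v with i | j
      · rw [Sum.elim_inl, map_add, constantCoeff_C, constantCoeff_X, add_zero]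
      · rw [Sum.elim_inr, constantCoeff_C]
  have h2 := RingHom.congr_fun h1 h
  rw [RingHom.comp_apply] at h2
  exact h2

theorem coeff_tay3_single {m : ℕ} (i : Fin m) (h : MvPolynomial (V3 m) ℂ) :
    (tay3 h).coeff (Finsupp.single i 1) = pderiv (Sum.inl i) h := by
  classical
  induction h using MvPolynomial.induction_on with
  | C a =>
    have e1 : tay3 (m := m) (C a) = C (C a) := by
      unfold tay3
      rw [aeval_C]
      rfl
    rw [e1, coeff_C, if_neg, pderiv_C]
    intro h0
    have := DFunLike.congr_fun h0 i
    simp at this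
  | add p q hp hq => rw [map_add, coeff_add, hp, hq, map_add]
  | mul_X p v hp =>
    rw [map_mul, coeff_single_mul, coeff_tay3_zero, coeff_tay3_zero, hp, Derivation.leibniz,
      smul_eq_mul, smul_eq_mul, pderiv_X]
    have e2 : (tay3 (m := m) (X v)).coeff (Finsupp.single i 1) =
        (Pi.single (Sum.inl i) 1 : V3 m → MvPolynomial (V3 m) ℂ) v := by
      unfold tay3
      rw [aeval_X]
      have h0 : (0 : Fin m →₀ ℕ) ≠ Finsupp.single i 1 := by
        intro h0
        have := DFunLike.congr_fun h0 i
        simp at this
      rcases v with l | j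
      · rw [Sum.elim_inl, coeff_add, coeff_C, if_neg h0, zero_add, coeff_X', Pi.single_apply]
        by_cases hl : l = i
        · subst hl
          rw [if_pos rfl, if_pos rfl]
        · rw [if_neg, if_neg]
          · exact fun h3 => hl (Sum.inl_injective h3)
          · intro h3
            have h4 := DFunLike.congr_fun h3 i
            rw [Finsupp.single_apply, if_neg hl, Finsupp.single_eq_same] at h4
            exact zero_ne_one h4
      · rw [Sum.elim_inr, coeff_C, if_neg h0, Pi.single_apply, if_neg Sum.inr_ne_inl]
    rw [e2]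
    ring

theorem pr_eq {m : ℕ} {R : Type*} [CommRing R] (P G : MvPolynomial (Fin m) R)
    (hP : P.totalDegree ≤ 1) : pr P G = ∑ i : Fin (m + 1), P.coeff (ex i) * G.coeff (ex i) := by
  classical
  unfold pr
  have h1 : P.support ⊆ univ.image (ex (m := m)) := by
    intro α hα
    obtain ⟨i, hi⟩ := exists_ex α ((le_totalDegree hα).trans hP)
    exact Finset.mem_image.mpr ⟨i, mem_univ i, hi⟩
  rw [Finset.sum_subset h1, Finset.sum_image (fun a _ b _ hab => ex_inj hab)]
  · refine Finset.sum_congr rfl fun i _ => ?_
    have h2 : ∏ j, (ex i j).factorial = 1 := by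
      apply Finset.prod_eq_one
      intro j _
      induction i using Fin.cases with
      | zero => rfl
      | succ i =>
        rw [ex_succ, Finsupp.single_apply]
        split_ifs <;> rfl
    rw [h2, Nat.cast_one, mul_one]
  · intro α _ hα
    rw [notMem_support_iff] at hα
    rw [hα, zero_mul, zero_mul]

theorem h_j1 (h1 : Pool.Agent.Helper69.DC.G_JET) : Pool.Agent.Helper69.DC.H_J1 := by
  classical
  intro m N d f hf hm hd P hP hPDE
  have h2 := h1 m N d f hf hm hd (fun i => P.coeff (ex i)) (by
    intro k
    rw [← hPDE k, pr_eq _ _ hP]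
    refine Finset.sum_congr rfl fun i _ => ?_
    congr 1
    induction i using Fin.cases with
    | zero =>
      rw [ex_zero, coeff_tay3_zero]
      rfl
    | succ i =>
      rw [ex_succ, coeff_tay3_single]
      rfl)
  by_contra hne
  obtain ⟨α, hα⟩ := MvPolynomial.support_nonempty.mpr hne
  obtain ⟨i, hi⟩ := exists_ex α ((le_totalDegree hα).trans hP)
  have h3 := h2 i
  rw [mem_support_iff, ← hi] at hα
  exact hα h3

end Pool.Agent.Helper86.DC
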