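import Pool.Agent.Helper66.DC.Goals3

/-!
# Project DC3 (MP_628424_an): kernel vectors of a matrix of polynomials (packet J_RK)
-/

set_option autoImplicit false

namespace Pool.Agent.Helper86.DC

open MvPolynomial

/-- A left inverse for independent columns, up to a nonzero factor. -/
theorem exists_left {A ρ κ : Type} [CommRing A] [IsDomain A] [Fintype ρ] [Fintype κ]
    (v : κ → ρ → A) (s : Set κ) (hs : LinearIndepOn A v s) :
    ∃ W : A, W ≠ 0 ∧ ∃ L : s → ρ → A, ∀ j j' : s, ∑ r, L j r * v j' r =
      (open Classical in if j = j' then W else 0) := by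
  classical
  let F := FractionRing A
  have : Fintype s := Fintype.ofFinite s
  let T₀ : (ρ → A) →ₗ[A] (ρ → F) := (Algebra.linearMap A F).compLeft ρ
  have hT₀ : Function.Injective T₀ := by
    intro f g h
    funext r
    have h1 := congrFun h r
    exact IsFractionRing.injective A F h1
  have h1 : LinearIndependent A (fun j : s => T₀ (v j)) :=
    hs.linearIndependent.map' T₀ (LinearMap.ker_eq_bot.2 hT₀)
  have h2 : LinearIndependent F (fun j : s => T₀ (v j)) :=
    h1.localization F (nonZeroDivisors A)
  obtain ⟨g, hg⟩ := LinearMap.exists_leftInverse_of_injective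
    (Fintype.linearCombination F (fun j : s => T₀ (v j)))
    (by
      rw [LinearMap.ker_eq_bot]
      exact h2.fintypeLinearCombination_injective)
  obtain ⟨b, hb⟩ := IsLocalization.exist_integer_multiples_of_finite (nonZeroDivisors A)
    (fun i : s × ρ => g (Pi.single i.2 1) i.1)
  choose L hL using hb
  refine ⟨b, nonZeroDivisors.coe_ne_zero b, fun j r => L (j, r), fun j j' => ?_⟩
  apply IsFractionRing.injective A F
  rw [map_sum]
  have h3 : ∀ r, algebraMap A F (L (j, r) * v j' r) =
      algebraMap A F b * (g (Pi.single r 1) j * algebraMap A F (v j' r)) := by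
    intro r
    rw [map_mul, hL, Algebra.smul_def, mul_assoc]
  rw [Finset.sum_congr rfl fun r _ => h3 r, ← Finset.mul_sum]
  have h4 : ∑ r, g (Pi.single r 1) j * algebraMap A F (v j' r) = g (T₀ (v j')) j := by
    have h5 : T₀ (v j') = ∑ r, algebraMap A F (v j' r) • (Pi.single r (1 : F) : ρ → F) := by
      funext r'
      rw [Finset.sum_apply, Finset.sum_eq_single r']
      · simp [T₀]
      · intro r _ hr
        simp [Pi.single_apply, hr.symm]
      · intro h
        exact absurd (Finset.mem_univ _) h
    rw [h5, map_sum, Finset.sum_apply]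
    refine Finset.sum_congr rfl fun r _ => ?_
    rw [map_smul, Pi.smul_apply, smul_eq_mul, mul_comm]
  have h6 : g (T₀ (v j')) = Pi.single j' (1 : F) := by
    have h7 := LinearMap.congr_fun hg (Pi.single j' (1 : F))
    rw [LinearMap.comp_apply, LinearMap.id_apply] at h7
    rw [← h7, Fintype.linearCombination_apply_single, one_smul]
  rw [h4, h6]
  by_cases h : j = j'
  · subst h
    simp
  · rw [if_neg h, map_zero, Pi.single_eq_of_ne h, mul_zero]

theorem sum_supp {κ B : Type} [AddCommMonoid B] [Fintype κ] (s : Set κ) [Fintype s] (g : κ → B)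
    (h : ∀ c, c ∉ s → g c = 0) : ∑ c, g c = ∑ j : s, g j := by
  classical
  rw [← Finset.sum_subtype (Finset.univ.filter fun c => c ∈ s) (by simp) g]
  symm
  apply Finset.sum_subset (Finset.filter_subset _ _)
  intro c _ hc
  exact h c (by simpa using hc)

theorem h_rk : Pool.Agent.Helper66.DC.J_RK := by
  classical
  intro σ ρ κ _ _ M
  let A := MvPolynomial σ ℂ
  obtain ⟨s, hs, hs'⟩ := exists_maximal_linearIndepOn A (fun (c : κ) (r : ρ) => M r c)
  have : Fintype s := Fintype.ofFinite s
  obtain ⟨W₁, hW₁, L, hL⟩ := exists_left (fun (c : κ) (r : ρ) => M r c) s hs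
  have hsp : ∀ c : κ, ∃ (a : A) (b : s → A), a ≠ 0 ∧
      (∀ r, a * M r c = ∑ j : s, b j * M r j) := by
    intro c
    by_cases hc : c ∈ s
    · refine ⟨1, Pi.single ⟨c, hc⟩ 1, one_ne_zero, fun r => ?_⟩
      rw [Finset.sum_eq_single ⟨c, hc⟩]
      · simp
      · intro j _ hj
        simp [Pi.single_apply, hj]
      · intro h
        exact absurd (Finset.mem_univ _) h
    · obtain ⟨a, ha, hm⟩ := hs' c hc
      rw [Set.image_eq_range] at hm
      obtain ⟨b, hb⟩ := (Submodule.mem_span_range_iff_exists_fun A).1 hm
      refine ⟨a, b, ha, fun r => ?_⟩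
      have h := congrFun hb r
      rw [Finset.sum_apply] at h
      simpa using h.symm
  choose a b ha hab using hsp
  refine ⟨W₁ * ∏ c, a c, mul_ne_zero hW₁ (Finset.prod_ne_zero_iff.2 fun c _ => ha c), ?_⟩
  intro x hx u hu
  rw [map_mul, map_prod] at hx
  have hx1 : eval x W₁ ≠ 0 := left_ne_zero_of_mul hx
  have hx2 : ∀ c, eval x (a c) ≠ 0 := fun c =>
    Finset.prod_ne_zero_iff.1 (right_ne_zero_of_mul hx) c (Finset.mem_univ _)
  -- the kernel vectors
  let e : κ → κ → A := fun c c' => (if c' = c then a c else 0) -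
    (if h : c' ∈ s then b c ⟨c', h⟩ else 0)
  have he : ∀ c r, ∑ c', M r c' * e c c' = 0 := by
    intro c r
    have h1 : ∑ c', M r c' * (if c' = c then a c else 0) = a c * M r c := by
      rw [Finset.sum_eq_single c]
      · rw [if_pos rfl, mul_comm]
      · intro c' _ h
        rw [if_neg h, mul_zero]
      · intro h
        exact absurd (Finset.mem_univ _) h
    have h2 : ∑ c', M r c' * (if h : c' ∈ s then b c ⟨c', h⟩ else 0) =
        ∑ j : s, b c j * M r j := by
      rw [sum_supp s]
      · refine Finset.sum_congr rfl fun j _ => ?_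
        rw [dif_pos j.2, mul_comm]
      · intro c' h
        rw [dif_neg h, mul_zero]
    simp only [e, mul_sub]
    rw [Finset.sum_sub_distrib, h1, h2, hab, sub_self]
  let K : κ → A := fun c' => ∑ c : (sᶜ : Set κ), C (u c / eval x (a c)) * e c c'
  have hK : ∀ r, ∑ c', M r c' * K c' = 0 := by
    intro r
    simp only [K, Finset.mul_sum]
    rw [Finset.sum_comm]
    refine Finset.sum_eq_zero fun c _ => ?_
    have h1 : ∀ c', M r c' * (C (u c / eval x (a c)) * e c c') =
        C (u c / eval x (a c)) * (M r c' * e c c') := fun c' => by ring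
    rw [Finset.sum_congr rfl fun c' _ => h1 c', ← Finset.mul_sum, he, mul_zero]
  refine ⟨K, hK, ?_⟩
  -- outside `s`
  have hout : ∀ c, c ∉ s → eval x (K c) = u c := by
    intro c hc
    simp only [K, map_sum, map_mul, eval_C]
    rw [Finset.sum_eq_single ⟨c, hc⟩]
    · simp only [e, dif_neg hc, if_true, sub_zero]
      exact div_mul_cancel₀ _ (hx2 c)
    · intro c' _ h
      have h1 : c ≠ c' := fun h2 => h (Subtype.ext h2.symm)
      simp only [e, dif_neg hc, if_neg h1, sub_zero, map_zero, mul_zero]
    · intro h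
      exact absurd (Finset.mem_univ _) h
  -- the difference
  let d : κ → ℂ := fun c => eval x (K c) - u c
  have hd0 : ∀ c, c ∉ s → d c = 0 := fun c hc => by simp only [d, hout c hc, sub_self]
  have hd : ∀ r, ∑ c, eval x (M r c) * d c = 0 := by
    intro r
    simp only [d, mul_sub]
    rw [Finset.sum_sub_distrib, hu r, sub_zero]
    have h1 := congrArg (eval x) (hK r)
    rw [map_sum, map_zero] at h1
    simpa only [map_mul] using h1
  have hds : ∀ r, ∑ j : s, eval x (M r j) * d j = 0 := by
    intro r
    rw [← hd r]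
    exact (sum_supp s (fun c => eval x (M r c) * d c) fun c hc => by
      beta_reduce
      rw [hd0 c hc, mul_zero]).symm
  intro c
  by_cases hc : c ∈ s
  · have h1 : ∑ r, eval x (L ⟨c, hc⟩ r) * ∑ j : s, eval x (M r j) * d j = 0 :=
      Finset.sum_eq_zero fun r _ => by rw [hds r, mul_zero]
    simp only [Finset.mul_sum] at h1
    rw [Finset.sum_comm] at h1
    have h2 : ∀ j : s, ∑ r, eval x (L ⟨c, hc⟩ r) * (eval x (M r j) * d j) =
        (if (⟨c, hc⟩ : s) = j then eval x W₁ * d j else 0) := by
      intro j
      have h3 := congrArg (eval x) (hL ⟨c, hc⟩ j)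
      rw [map_sum] at h3
      simp only [map_mul] at h3
      simp only [← mul_assoc]
      rw [← Finset.sum_mul, h3]
      split_ifs with h
      · rfl
      · rw [map_zero, zero_mul]
    rw [Finset.sum_congr rfl fun j _ => h2 j, Finset.sum_ite_eq, if_pos (Finset.mem_univ _)] at h1
    have h4 : d c = 0 := (mul_eq_zero.1 h1).resolve_left hx1
    exact sub_eq_zero.1 h4
  · exact hout c hc

end Pool.Agent.Helper86.DC
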